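import Pool.Agent.H977R3.Defs

/-!
T6: the relation between pivots is a union of few nested relations.
-/

namespace Pool.Agent.H977R3

open Pool.Agent.H977R2 (Saw Adj Cut Up fl zf ct SawSet mem_SawSet)
open H981 (FBr BrSet mem_BrSet)

/-- dyadic scale -/
def covK (y : ℤ) : ℕ := if y ≤ 0 then 0 else Nat.log 2 y.toNat + 1

theorem covK_zero {y : ℤ} (h : covK y = 0) : y ≤ 0 := by
  unfold covK at h
  by_contra hcon
  rw [if_neg hcon] at h
  omega

theorem lt_covK (y : ℤ) : y < 2 ^ covK y := by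
  unfold covK
  split_ifs with h
  · simp; omega
  · have h1 := Nat.lt_pow_succ_log_self (b := 2) (by norm_num) y.toNat
    have h2 : (y.toNat : ℤ) = y := Int.toNat_of_nonneg (by omega)
    have h3 : ((y.toNat : ℕ) : ℤ) < ((2 ^ (Nat.log 2 y.toNat + 1) : ℕ) : ℤ) := by exact_mod_cast h1
    rw [h2] at h3
    push_cast at h3
    exact h3

theorem covK_le {y : ℤ} (h : 1 ≤ covK y) : 2 ^ covK y ≤ 2 * y := by
  unfold covK at h ⊢
  split_ifs at h ⊢ with h0
  · omega
  · have hy : y.toNat ≠ 0 := by omega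
    have h1 := Nat.pow_log_le_self 2 hy
    have h2 : (y.toNat : ℤ) = y := Int.toNat_of_nonneg (by omega)
    have h3 : ((2 ^ (Nat.log 2 y.toNat) : ℕ) : ℤ) ≤ ((y.toNat : ℕ) : ℤ) := by exact_mod_cast h1
    rw [h2] at h3
    push_cast at h3
    rw [pow_succ]
    linarith

theorem covK_lt {y l : ℤ} (h : y < l) : covK y < Nat.log 2 l.toNat + 2 := by
  unfold covK
  split_ifs with h0
  · omega
  · have h1 : y.toNat ≤ l.toNat := Int.toNat_le_toNat h.le
    have := Nat.log_mono_right (b := 2) h1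
    omega

/-- the abstract combinatorial core: integer heights `x`, forward pivots `F`, backward pivots
`G` -/
theorem cov_core (x : ℕ → ℤ) (a d l : ℤ) (N ta td : ℕ) (F G : ℕ → Prop) (R : ℕ → ℕ → Prop)
    (hR : ∀ t s, R t s ↔ F t ∧ G s ∧ t ≤ s ∧ (∀ i, t < i → i ≤ s → x i < 2 * x t - a) ∧
      (∀ i, t ≤ i → i ≤ s → 2 * x s - d ≤ x i))
    (hF1 : ∀ t, F t → ta ≤ t) (hF3 : ∀ t, F t → ∀ i, i ≤ t → x i ≤ x t)
    (hFl : ∀ t, F t → x t - a < l) (hta : x ta = a) (hta' : ∀ i, ta < i → a < x i)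
    (hG2 : ∀ s, G s → s ≤ td) (hG3 : ∀ s, G s → ∀ i, s < i → x s < x i)
    (hGl : ∀ s, G s → d - x s < l) (htd : x td = d) (htdN : td ≤ N) :
    ∃ col : ℕ × ℕ → Fin (Nat.log 2 l.toNat + 2) × Fin (Nat.log 2 l.toNat + 2) × Bool × Bool,
      ∀ p : ℕ × ℕ, R p.1 p.2 → ∀ q : ℕ × ℕ, R q.1 q.2 → col p = col q →
      (∀ s, R p.1 s → col (p.1, s) = col p → R q.1 s ∧ col (q.1, s) = col p) ∨
      (∀ s, R q.1 s → col (q.1, s) = col p → R p.1 s ∧ col (p.1, s) = col p) := by
  classical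
  set K : ℕ → ℕ := fun t => covK (x t - a) with hK
  set K' : ℕ → ℕ := fun s => covK (d - x s) with hK'
  set E : ℕ → ℕ → Prop := fun t k => ∀ i, t ≤ i → i ≤ N → d - 2 ^ k ≤ x i with hE
  set E' : ℕ → ℕ → Prop := fun s k => ∀ i, i ≤ s → x i < a + 2 ^ k with hE'
  set col : ℕ × ℕ → Fin (Nat.log 2 l.toNat + 2) × Fin (Nat.log 2 l.toNat + 2) × Bool × Bool :=
    fun p => (Fin.ofNat _ (K p.1), Fin.ofNat _ (K' p.2), decide (E p.1 (K' p.2)),
      decide (E' p.2 (K p.1))) with hcol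
  have hKl : ∀ t, F t → K t < Nat.log 2 l.toNat + 2 := fun t ht => covK_lt (hFl t ht)
  have hKl' : ∀ s, G s → K' s < Nat.log 2 l.toNat + 2 := fun s hs => covK_lt (hGl s hs)
  have hcoleq : ∀ t s u r, F t → G s → F u → G r →
      (col (t, s) = col (u, r) ↔ K t = K u ∧ K' s = K' r ∧ (E t (K' s) ↔ E u (K' r)) ∧
        (E' s (K t) ↔ E' r (K u))) := by
    intro t s u r ht hs hu hr
    simp only [hcol, Prod.mk.injEq, decide_eq_decide]
    have e1 : (Fin.ofNat (Nat.log 2 l.toNat + 2) (K t) = Fin.ofNat (Nat.log 2 l.toNat + 2) (K u))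
        ↔ K t = K u := by
      rw [Fin.ext_iff, Fin.val_ofNat, Fin.val_ofNat, Nat.mod_eq_of_lt (hKl t ht),
        Nat.mod_eq_of_lt (hKl u hu)]
    have e2 : (Fin.ofNat (Nat.log 2 l.toNat + 2) (K' s) = Fin.ofNat (Nat.log 2 l.toNat + 2) (K' r))
        ↔ K' s = K' r := by
      rw [Fin.ext_iff, Fin.val_ofNat, Fin.val_ofNat, Nat.mod_eq_of_lt (hKl' s hs),
        Nat.mod_eq_of_lt (hKl' r hr)]
    rw [e1, e2]
  have hKt : ∀ t, F t → K t = 0 → t = ta := by
    intro t ht h0
    have h1 := covK_zero h0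
    have h2 := hF1 t ht
    by_contra hcon
    have := hta' t (by omega)
    omega
  have hKs : ∀ s, G s → K' s = 0 → s = td := by
    intro s hs h0
    have h1 := covK_zero h0
    have h2 := hG2 s hs
    by_contra hcon
    have := hG3 s hs td (by omega)
    omega
  have main : ∀ t p2 u q2, R t p2 → R u q2 → col (t, p2) = col (u, q2) → t ≤ u →
      (∀ s, R t s → col (t, s) = col (t, p2) → R u s ∧ col (u, s) = col (t, p2)) ∨
      (∀ s, R u s → col (u, s) = col (t, p2) → R t s ∧ col (t, s) = col (t, p2)) := by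
    intro t p2 u q2 hp hq hc htu
    obtain ⟨Ft, Gp, hle1, c1p, c2p⟩ := (hR _ _).1 hp
    obtain ⟨Fu, Gq, hle2, c1q, c2q⟩ := (hR _ _).1 hq
    obtain ⟨k1, k2, k3, k4⟩ := (hcoleq _ _ _ _ Ft Gp Fu Gq).1 hc
    have hxtu : x t ≤ x u := hF3 u Fu t htu
    by_cases hk0 : K t = 0
    · -- t = u = ta
      have h1 := hKt t Ft hk0
      have h2 := hKt u Fu (by omega)
      have : t = u := by omega
      subst this
      left
      intro s hs hcs
      exact ⟨hs, hcs⟩
    by_cases hk0' : K' p2 = 0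
    · have h1 := hKs p2 Gp hk0'
      have h2 := hKs q2 Gq (by omega)
      right
      intro s hs hcs
      obtain ⟨-, Gs, -, -, -⟩ := (hR _ _).1 hs
      obtain ⟨-, j2, -, -⟩ := (hcoleq _ _ _ _ Fu Gs Ft Gp).1 hcs
      have h3 := hKs s Gs (by omega)
      have : s = p2 := by omega
      subst this
      exact ⟨hp, rfl⟩
    have ht0 : 1 ≤ K t := by omega
    have ht1 : 2 ^ K t ≤ 2 * (x t - a) := covK_le ht0
    have ht2 : x t - a < 2 ^ K t := lt_covK _
    have hu2 : x u - a < 2 ^ K t := by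
      rw [k1]; exact lt_covK _
    by_cases hee : E t (K' p2) ∧ E' p2 (K t)
    · -- second alternative
      right
      intro s hs hcs
      obtain ⟨-, Gs, hus, c1, c2⟩ := (hR _ _).1 hs
      obtain ⟨j1, j2, j3, j4⟩ := (hcoleq _ _ _ _ Fu Gs Ft Gp).1 hcs
      have es : E' s (K t) := by
        rw [← j1]; exact j4.2 hee.2
      have et : E t (K' s) := by
        rw [j2]; exact hee.1
      have hs0 : 1 ≤ K' s := by omega
      have hs1 : 2 ^ K' s ≤ 2 * (d - x s) := covK_le hs0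
      have hsN : s ≤ N := (hG2 s Gs).trans htdN
      have hRts : R t s := by
        rw [hR]
        refine ⟨Ft, Gs, htu.trans hus, ?_, ?_⟩
        · intro i hi1 hi2
          have := es i hi2
          linarith
        · intro i hi1 hi2
          have := et i hi1 (hi2.trans hsN)
          linarith
      refine ⟨hRts, ?_⟩
      rw [hcoleq _ _ _ _ Ft Gs Ft Gp]
      exact ⟨rfl, j2, ⟨fun _ => hee.1, fun _ => et⟩, ⟨fun _ => hee.2, fun _ => es⟩⟩
    · -- first alternative
      left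
      intro s hs hcs
      obtain ⟨-, Gs, hts, c1, c2⟩ := (hR _ _).1 hs
      obtain ⟨-, j2, j3, j4⟩ := (hcoleq _ _ _ _ Ft Gs Ft Gp).1 hcs
      have hs2 : d - x s < 2 ^ K' s := lt_covK _
      have hus : u ≤ s := by
        by_contra hcon
        push Not at hcon
        -- s < u
        apply hee
        constructor
        · -- E t (K' p2): use that all `i ≥ s` are high, and all `i ≥ u` ...
          rw [k3]
          intro i hi1 hi2
          have h1 : x s < x i := hG3 s Gs i (by omega)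
          rw [← k2, ← j2]
          linarith
        · rw [← j4]
          intro i hi
          have h1 := hF3 u Fu i (by omega)
          linarith
      have hRus : R u s := by
        rw [hR]
        refine ⟨Fu, Gs, hus, ?_, ?_⟩
        · intro i hi1 hi2
          have := c1 i (by omega) hi2
          linarith
        · intro i hi1 hi2
          exact c2 i (by omega) hi2
      refine ⟨hRus, ?_⟩
      rw [hcoleq _ _ _ _ Fu Gs Ft Gp]
      refine ⟨k1.symm, j2, ?_, ?_⟩
      · rw [j2, k3, k2]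
      · rw [← k1]; exact j4
  refine ⟨col, ?_⟩
  rintro ⟨t, p2⟩ hp ⟨u, q2⟩ hq hc
  rcases le_total t u with h | h
  · exact main t p2 u q2 hp hq hc h
  · rcases main u q2 t p2 hq hp hc.symm h with h' | h'
    · right
      intro s hs hcs
      rw [hc] at hcs ⊢
      exact h' s hs hcs
    · left
      intro s hs hcs
      rw [hc] at hcs ⊢
      exact h' s hs hcs

theorem Om.unique {N : ℕ} {l A B : ℤ} {ta td ta2 td2 : ℕ} {w : Wk} (h : Om N l A B ta td w)
    (h2 : Om N l A B ta2 td2 w) : ta = ta2 ∧ td = td2 := by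
  constructor
  · exact le_antisymm (h.amin _ h2.cta h2.a1) (h2.amin _ h.cta h.a1)
  · exact le_antisymm (h2.bmax _ h.ctd h.b1) (h.bmax _ h2.ctd h2.b1)

/-- T6: the relation between pivots is a union of few nested relations. -/
theorem cover (N : ℕ) (l A B : ℤ) (w : Wk) :
    ∃ col : ℕ × ℕ → Fin (Nat.log 2 l.toNat + 2) × Fin (Nat.log 2 l.toNat + 2) × Bool × Bool,
      ∀ p ∈ RR N l A B w, ∀ q ∈ RR N l A B w, col p = col q →
      (∀ s, (p.1, s) ∈ RR N l A B w → col (p.1, s) = col p →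
        (q.1, s) ∈ RR N l A B w ∧ col (q.1, s) = col p) ∨
      (∀ s, (q.1, s) ∈ RR N l A B w → col (q.1, s) = col p →
        (p.1, s) ∈ RR N l A B w ∧ col (p.1, s) = col p) := by
  classical
  by_cases hne : ∃ ta td, Om N l A B ta td w
  swap
  · refine ⟨fun _ => (0, 0, false, false), ?_⟩
    intro p hp
    exfalso
    unfold RR at hp
    rw [Finset.mem_filter] at hp
    obtain ⟨-, ⟨ta, td, h⟩, -⟩ := hp
    exact hne ⟨ta, td, h.om⟩
  obtain ⟨ta, td, hom⟩ := hne
  have hmem : ∀ t s, (t, s) ∈ RR N l A B w ↔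
      (GF N l ta td w t ∧ IsV N l A B (rf w t)) ∧ (GB N l ta td w s ∧ IsV N l A B (rf w s)) ∧
      t ≤ s ∧ (∀ i, t < i → i ≤ s → (w i).1 < 2 * (w t).1 - (w ta).1) ∧
      (∀ i, t ≤ i → i ≤ s → 2 * (w s).1 - (w td).1 ≤ (w i).1) := by
    intro t s
    unfold RR
    rw [Finset.mem_filter, Finset.mem_product, Finset.mem_range, Finset.mem_range]
    unfold QP
    constructor
    · rintro ⟨-, ⟨ta2, td2, h⟩, h2, h3⟩
      obtain ⟨e1, e2⟩ := hom.unique h.om
      subst e1 e2
      exact ⟨⟨h.gf, h2⟩, ⟨h.gb, h3⟩, h.le, h.c1, h.c2⟩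
    · rintro ⟨⟨h1, h2⟩, ⟨h3, h4⟩, h5, h6, h7⟩
      have htd : td < N := hom.ctd.1
      have e1 := h1.h2
      have e2 := h3.h2
      exact ⟨⟨by omega, by omega⟩, ⟨ta, td, hom, h1, h3, h5, h6, h7⟩, h2, h4⟩
  obtain ⟨col, hcol⟩ := cov_core (fun i => (w i).1) (w ta).1 (w td).1 l N ta td
    (fun t => GF N l ta td w t ∧ IsV N l A B (rf w t))
    (fun s => GB N l ta td w s ∧ IsV N l A B (rf w s)) (fun t s => (t, s) ∈ RR N l A B w)
    (fun t s => hmem t s) (fun t h => h.1.h1) (fun t h => h.1.mx) (fun t h => h.1.win) rfl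
    (fun i hi => by have := hom.cta.2.2 i hi; omega)
    (fun s h => h.1.h2) (fun s h => h.1.mn) (fun s h => h.1.win) rfl hom.ctd.1.le
  refine ⟨col, ?_⟩
  rintro ⟨t, p2⟩ hp ⟨u, q2⟩ hq hc
  exact hcol (t, p2) hp (u, q2) hq hc

end Pool.Agent.H977R3
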