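import Mathlib

/-!
Task T3: a logarithmic bound for sums over unions of few nested relations.
-/

namespace Pool.Agent.H977R3

theorem harm_log (n : ℕ) (a : ℕ → ℝ) (ha : ∀ i, i ≤ n → 0 < a i) :
    ∑ i ∈ Finset.range (n + 1), a i / ∑ j ∈ Finset.range (i + 1), a j ≤
      1 + Real.log ((∑ j ∈ Finset.range (n + 1), a j) / a 0) := by
  induction n with
  | zero =>
    have h0 := (ha 0 le_rfl).ne'
    simp [h0]
  | succ n ih =>
    have ih' := ih (fun i hi => ha i (by omega))
    have h0 := ha 0 (by omega)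
    have hS : 0 < ∑ j ∈ Finset.range (n + 1), a j :=
      Finset.sum_pos (fun i hi => ha i (by rw [Finset.mem_range] at hi; omega)) ⟨0, by simp⟩
    have hS' : 0 < ∑ j ∈ Finset.range (n + 1 + 1), a j :=
      Finset.sum_pos (fun i hi => ha i (by rw [Finset.mem_range] at hi; omega)) ⟨0, by simp⟩
    rw [Finset.sum_range_succ]
    have h1 : a (n + 1) / ∑ j ∈ Finset.range (n + 1 + 1), a j ≤
        Real.log ((∑ j ∈ Finset.range (n + 1 + 1), a j) / ∑ j ∈ Finset.range (n + 1), a j) := by
      refine le_trans (le_of_eq ?_) (Real.one_sub_inv_le_log_of_pos (div_pos hS' hS))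
      rw [inv_div, eq_sub_iff_add_eq, ← add_div, Finset.sum_range_succ a (n + 1),
        add_comm (a (n + 1)), div_self]
      rw [← Finset.sum_range_succ]
      exact hS'.ne'
    have h2 : Real.log ((∑ j ∈ Finset.range (n + 1 + 1), a j) / a 0) =
        Real.log ((∑ j ∈ Finset.range (n + 1), a j) / a 0) +
        Real.log ((∑ j ∈ Finset.range (n + 1 + 1), a j) / ∑ j ∈ Finset.range (n + 1), a j) := by
      rw [← Real.log_mul (div_pos hS h0).ne' (div_pos hS' hS).ne']
      congr 1
      field_simp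
    rw [h2]
    linarith

/-- sums along a nested family -/
theorem nested_log (N : ℕ → Finset ℕ) (α : ℕ → ℝ) {e : ℝ} (he : 0 < e) (T : Finset ℕ)
    (hT : T.Nonempty) (hα : ∀ t ∈ T, e ≤ α t)
    (hN : ∀ t ∈ T, ∀ u ∈ T, N t ⊆ N u ∨ N u ⊆ N t) :
    ∑ t ∈ T, α t / (∑ u ∈ T.filter (fun u => N t ⊆ N u), α u) ≤
      1 + Real.log ((∑ t ∈ T, α t) / e) := by
  classical
  induction T using Finset.strongInduction with
  | H T ih =>
    obtain ⟨t0, ht0, hmin⟩ := Finset.exists_min_image T (fun t => (N t).card) hT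
    have hsub : ∀ u ∈ T, N t0 ⊆ N u := by
      intro u hu
      rcases hN t0 ht0 u hu with h | h
      · exact h
      · exact (Finset.eq_of_subset_of_card_le h (hmin u hu)).ge
    have hfil : T.filter (fun u => N t0 ⊆ N u) = T := Finset.filter_true_of_mem hsub
    have hpos : ∀ t ∈ T, 0 < α t := fun t ht => he.trans_le (hα t ht)
    have hST : 0 < ∑ t ∈ T, α t := Finset.sum_pos hpos hT
    rw [← Finset.add_sum_erase T (fun t => α t / ∑ u ∈ T.filter (fun u => N t ⊆ N u), α u) ht0]
    rw [hfil]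
    rcases (T.erase t0).eq_empty_or_nonempty with hE | hE
    · have hTs : T = {t0} := by
        rw [← Finset.insert_erase ht0, hE]
        rfl
      rw [hE, Finset.sum_empty, add_zero, hTs, Finset.sum_singleton,
        div_self (hpos t0 ht0).ne']
      have : 0 ≤ Real.log (α t0 / e) := Real.log_nonneg (by
        rw [le_div_iff₀ he, one_mul]
        exact hα t0 ht0)
      linarith
    · have hS' : 0 < ∑ t ∈ T.erase t0, α t :=
        Finset.sum_pos (fun t ht => hpos t (Finset.mem_of_mem_erase ht)) hE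
      have ih' := ih (T.erase t0) (Finset.erase_ssubset ht0) hE
        (fun t ht => hα t (Finset.mem_of_mem_erase ht))
        (fun t ht u hu => hN t (Finset.mem_of_mem_erase ht) u (Finset.mem_of_mem_erase hu))
      have h1 : ∑ t ∈ T.erase t0, α t / (∑ u ∈ T.filter (fun u => N t ⊆ N u), α u) ≤
          ∑ t ∈ T.erase t0, α t / (∑ u ∈ (T.erase t0).filter (fun u => N t ⊆ N u), α u) := by
        refine Finset.sum_le_sum fun t ht => ?_
        have htT := Finset.mem_of_mem_erase ht
        refine div_le_div_of_nonneg_left (hpos t htT).le ?_ ?_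
        · refine Finset.sum_pos (fun u hu => ?_) ⟨t, ?_⟩
          · exact hpos u (Finset.mem_of_mem_erase (Finset.mem_filter.mp hu).1)
          · rw [Finset.mem_filter]
            exact ⟨ht, Finset.Subset.refl _⟩
        · refine Finset.sum_le_sum_of_subset_of_nonneg ?_ ?_
          · exact Finset.filter_subset_filter _ (Finset.erase_subset _ _)
          · intro u hu _
            exact (hpos u (Finset.mem_filter.mp hu).1).le
      have h2 : α t0 / ∑ t ∈ T, α t ≤ Real.log ((∑ t ∈ T, α t) / ∑ t ∈ T.erase t0, α t) := by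
        refine le_trans (le_of_eq ?_) (Real.one_sub_inv_le_log_of_pos (div_pos hST hS'))
        rw [inv_div, eq_sub_iff_add_eq, ← add_div, Finset.add_sum_erase T α ht0, div_self hST.ne']
      have h3 : Real.log ((∑ t ∈ T, α t) / e) =
          Real.log ((∑ t ∈ T.erase t0, α t) / e) +
          Real.log ((∑ t ∈ T, α t) / ∑ t ∈ T.erase t0, α t) := by
        rw [← Real.log_mul (div_pos hS' he).ne' (div_pos hST hS').ne']
        congr 1
        field_simp
      rw [h3]
      linarith

theorem Y_le {C : Type*} [Fintype C] [DecidableEq C] (R : Finset (ℕ × ℕ)) (col : ℕ × ℕ → C)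
    (α β : ℕ → ℝ) (n : ℕ) (D : ℝ) (hnD : 1 ≤ (n : ℝ) * D) (hn : ∀ p ∈ R, p.1 < n)
    (hα : ∀ p ∈ R, 0 < α p.1 ∧ α p.1 ≤ 1 ∧ 1 ≤ D * α p.1) (hβ : ∀ p ∈ R, 0 < β p.2)
    (hnest : ∀ p ∈ R, ∀ q ∈ R, col p = col q →
      (∀ s, (p.1, s) ∈ R → col (p.1, s) = col p → (q.1, s) ∈ R ∧ col (q.1, s) = col p) ∨
      (∀ s, (q.1, s) ∈ R → col (q.1, s) = col p → (p.1, s) ∈ R ∧ col (p.1, s) = col p)) :
    ∑ p ∈ R, α p.1 * β p.2 / ((∑ q ∈ R.filter (fun q => q.1 = p.1), β q.2) *
      (∑ q ∈ R.filter (fun q => q.2 = p.2), α q.1)) ≤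
      Fintype.card C * (1 + Real.log (n * D)) := by
  classical
  have hlog : 0 ≤ Real.log (n * D) := Real.log_nonneg hnD
  have hfib := Finset.sum_fiberwise_of_maps_to (s := R) (t := (Finset.univ : Finset C)) (g := col)
    (fun _ _ => Finset.mem_univ _) (fun p => α p.1 * β p.2 /
      ((∑ q ∈ R.filter (fun q => q.1 = p.1), β q.2) *
      (∑ q ∈ R.filter (fun q => q.2 = p.2), α q.1)))
  rw [← hfib]
  suffices h : ∀ c : C, ∑ p ∈ R.filter (fun p => col p = c), α p.1 * β p.2 /
      ((∑ q ∈ R.filter (fun q => q.1 = p.1), β q.2) *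
      (∑ q ∈ R.filter (fun q => q.2 = p.2), α q.1)) ≤ 1 + Real.log (n * D) by
    calc _ ≤ ∑ c : C, (1 + Real.log (n * D)) := Finset.sum_le_sum fun c _ => h c
      _ = _ := by rw [Finset.sum_const, Finset.card_univ, nsmul_eq_mul]
  intro c
  set Rc := R.filter (fun p => col p = c) with hRc
  rcases Rc.eq_empty_or_nonempty with hE | hE
  · rw [hE, Finset.sum_empty]
    linarith
  set Nb : ℕ → Finset ℕ := fun t => (Rc.filter (fun q => q.1 = t)).image Prod.snd with hNb
  set T : Finset ℕ := Rc.image Prod.fst with hTdef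
  have hTne : T.Nonempty := hE.image _
  have hmemR : ∀ p ∈ Rc, p ∈ R := fun p hp => (Finset.mem_filter.mp hp).1
  have hmemN : ∀ t s, s ∈ Nb t ↔ (t, s) ∈ Rc := by
    intro t s
    rw [hNb]
    simp only [Finset.mem_image, Finset.mem_filter]
    constructor
    · rintro ⟨⟨a, b⟩, ⟨h1, h2⟩, h3⟩
      simp only at h2 h3
      rw [← h2, ← h3]
      exact h1
    · intro h
      exact ⟨(t, s), ⟨h, rfl⟩, rfl⟩
  have hmemT : ∀ t, t ∈ T ↔ ∃ s, (t, s) ∈ Rc := by
    intro t
    rw [hTdef]
    simp only [Finset.mem_image]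
    constructor
    · rintro ⟨⟨a, b⟩, h1, h2⟩
      simp only at h2
      exact ⟨b, by rw [← h2]; exact h1⟩
    · rintro ⟨s, h⟩
      exact ⟨(t, s), h, rfl⟩
  have hαT : ∀ t ∈ T, 0 < α t ∧ α t ≤ 1 ∧ 1 ≤ D * α t := by
    intro t ht
    obtain ⟨s, hs⟩ := (hmemT t).mp ht
    exact hα _ (hmemR _ hs)
  have hD : 0 < D := by
    obtain ⟨t, ht⟩ := hTne
    obtain ⟨h1, h2, h3⟩ := hαT t ht
    by_contra h
    push Not at h
    nlinarith
  have hTn : (T.card : ℝ) ≤ n := by
    have : T ⊆ Finset.range n := by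
      intro t ht
      obtain ⟨s, hs⟩ := (hmemT t).mp ht
      exact Finset.mem_range.mpr (hn _ (hmemR _ hs))
    have := Finset.card_le_card this
    rw [Finset.card_range] at this
    exact_mod_cast this
  have hNest : ∀ t ∈ T, ∀ u ∈ T, Nb t ⊆ Nb u ∨ Nb u ⊆ Nb t := by
    intro t ht u hu
    obtain ⟨s, hs⟩ := (hmemT t).mp ht
    obtain ⟨s', hs'⟩ := (hmemT u).mp hu
    have hsc : col (t, s) = c := (Finset.mem_filter.mp hs).2
    have hsc' : col (u, s') = c := (Finset.mem_filter.mp hs').2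
    rcases hnest (t, s) (hmemR _ hs) (u, s') (hmemR _ hs') (hsc.trans hsc'.symm) with h | h
    · left
      intro r hr
      rw [hmemN] at hr ⊢
      rw [hRc, Finset.mem_filter] at hr ⊢
      have := h r hr.1 (hr.2.trans hsc.symm)
      exact ⟨this.1, this.2.trans hsc⟩
    · right
      intro r hr
      rw [hmemN] at hr ⊢
      rw [hRc, Finset.mem_filter] at hr ⊢
      have := h r hr.1 (hr.2.trans hsc.symm)
      exact ⟨this.1, this.2.trans hsc⟩
  -- main estimate
  have hB : ∀ t ∈ T, 0 < ∑ s ∈ Nb t, β s := by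
    intro t ht
    obtain ⟨s, hs⟩ := (hmemT t).mp ht
    refine Finset.sum_pos (fun r hr => ?_) ⟨s, (hmemN t s).mpr hs⟩
    exact hβ _ (hmemR _ ((hmemN t r).mp hr))
  have hA : ∀ t ∈ T, 0 < ∑ u ∈ T.filter (fun u => Nb t ⊆ Nb u), α u := by
    intro t ht
    refine Finset.sum_pos (fun u hu => (hαT u (Finset.mem_filter.mp hu).1).1) ⟨t, ?_⟩
    rw [Finset.mem_filter]
    exact ⟨ht, Finset.Subset.refl _⟩
  have hterm : ∀ p ∈ Rc, α p.1 * β p.2 /
      ((∑ q ∈ R.filter (fun q => q.1 = p.1), β q.2) *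
      (∑ q ∈ R.filter (fun q => q.2 = p.2), α q.1)) ≤
      α p.1 * β p.2 / ((∑ s ∈ Nb p.1, β s) * ∑ u ∈ T.filter (fun u => Nb p.1 ⊆ Nb u), α u) := by
    rintro ⟨t, s⟩ hp
    have htT : t ∈ T := (hmemT t).mpr ⟨s, hp⟩
    simp only
    refine div_le_div_of_nonneg_left ?_ (mul_pos (hB t htT) (hA t htT)) ?_
    · exact mul_nonneg (hαT t htT).1.le (hβ _ (hmemR _ hp)).le
    · refine mul_le_mul ?_ ?_ (hA t htT).le ?_
      · have hinj : ∑ s ∈ Nb t, β s = ∑ q ∈ Rc.filter (fun q => q.1 = t), β q.2 := by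
          rw [hNb]
          simp only
          rw [Finset.sum_image]
          rintro ⟨a, b⟩ h1 ⟨a', b'⟩ h2 h3
          simp only [Finset.coe_filter, Set.mem_ofPred_eq] at h1 h2
          simp only at h3
          rw [Prod.mk.injEq]
          exact ⟨h1.2.trans h2.2.symm, h3⟩
        rw [hinj]
        refine Finset.sum_le_sum_of_subset_of_nonneg ?_ ?_
        · exact Finset.filter_subset_filter _ (Finset.filter_subset _ _)
        · intro q hq _
          exact (hβ q (Finset.mem_filter.mp hq).1).le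
      · have hinj : ∑ u ∈ T.filter (fun u => Nb t ⊆ Nb u), α u =
            ∑ q ∈ (T.filter (fun u => Nb t ⊆ Nb u)).image (fun u => (u, s)), α q.1 := by
          rw [Finset.sum_image]
          intro a _ b _ h
          exact (Prod.mk.injEq _ _ _ _ ▸ h).1
        rw [hinj]
        refine Finset.sum_le_sum_of_subset_of_nonneg ?_ ?_
        · intro q hq
          rw [Finset.mem_image] at hq
          obtain ⟨u, hu, rfl⟩ := hq
          rw [Finset.mem_filter] at hu ⊢
          have : s ∈ Nb u := hu.2 ((hmemN t s).mpr hp)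
          exact ⟨hmemR _ ((hmemN u s).mp this), rfl⟩
        · intro q hq _
          exact (hα q (Finset.mem_filter.mp hq).1).1.le
      · exact Finset.sum_nonneg fun q hq => (hβ q (Finset.mem_filter.mp hq).1).le
  calc ∑ p ∈ Rc, α p.1 * β p.2 / ((∑ q ∈ R.filter (fun q => q.1 = p.1), β q.2) *
        (∑ q ∈ R.filter (fun q => q.2 = p.2), α q.1))
      ≤ ∑ p ∈ Rc, α p.1 * β p.2 / ((∑ s ∈ Nb p.1, β s) *
          ∑ u ∈ T.filter (fun u => Nb p.1 ⊆ Nb u), α u) := Finset.sum_le_sum hterm
    _ = ∑ t ∈ T, ∑ p ∈ Rc.filter (fun p => p.1 = t), α p.1 * β p.2 / ((∑ s ∈ Nb p.1, β s) *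
          ∑ u ∈ T.filter (fun u => Nb p.1 ⊆ Nb u), α u) := by
        rw [Finset.sum_fiberwise_of_maps_to]
        intro p hp
        exact Finset.mem_image_of_mem _ hp
    _ = ∑ t ∈ T, α t / (∑ u ∈ T.filter (fun u => Nb t ⊆ Nb u), α u) := by
        refine Finset.sum_congr rfl fun t ht => ?_
        have h1 : ∑ p ∈ Rc.filter (fun p => p.1 = t), α p.1 * β p.2 / ((∑ s ∈ Nb p.1, β s) *
            ∑ u ∈ T.filter (fun u => Nb p.1 ⊆ Nb u), α u) =
            ∑ p ∈ Rc.filter (fun p => p.1 = t), β p.2 * (α t / ((∑ s ∈ Nb t, β s) *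
            ∑ u ∈ T.filter (fun u => Nb t ⊆ Nb u), α u)) := by
          refine Finset.sum_congr rfl fun p hp => ?_
          rw [(Finset.mem_filter.mp hp).2]
          ring
        have hinj : ∑ s ∈ Nb t, β s = ∑ q ∈ Rc.filter (fun q => q.1 = t), β q.2 := by
          rw [hNb]
          simp only
          rw [Finset.sum_image]
          rintro ⟨a, b⟩ h1 ⟨a', b'⟩ h2 h3
          simp only [Finset.coe_filter, Set.mem_ofPred_eq] at h1 h2
          simp only at h3
          rw [Prod.mk.injEq]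
          exact ⟨h1.2.trans h2.2.symm, h3⟩
        rw [h1, ← Finset.sum_mul, ← hinj]
        have hb := (hB t ht).ne'
        have ha := (hA t ht).ne'
        field_simp
    _ ≤ 1 + Real.log ((∑ t ∈ T, α t) / (1 / D)) := by
        refine nested_log Nb α (by positivity) T hTne ?_ hNest
        intro t ht
        rw [div_le_iff₀ hD]
        have := (hαT t ht).2.2
        linarith
    _ ≤ 1 + Real.log (n * D) := by
        have hpos : 0 < ∑ t ∈ T, α t := Finset.sum_pos (fun t ht => (hαT t ht).1) hTne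
        have h2 : (∑ t ∈ T, α t) / (1 / D) ≤ n * D := by
          rw [div_div_eq_mul_div, div_one]
          refine mul_le_mul_of_nonneg_right ?_ hD.le
          calc ∑ t ∈ T, α t ≤ ∑ t ∈ T, (1 : ℝ) := Finset.sum_le_sum fun t ht => (hαT t ht).2.1
            _ = T.card := by simp
            _ ≤ n := hTn
        have := Real.log_le_log (by positivity) h2
        linarith

end Pool.Agent.H977R3
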