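import Pool.Agent.H977R3.Scal

/-!
Task T2: the abstract inequality.
-/

namespace Pool.Agent.H977R3

/-- pointwise inequality -/
theorem ineq_pt {p U U' X X' : ℝ} (hp : 0 < p) (hU : 0 < U) (hU' : 0 < U') (hX : 0 ≤ X)
    (hX' : 0 ≤ X') (h : X * X' = p ^ 2 * (U * U')) :
    p ≤ (X + X') / 4 + (p / U + p / U') / 4 := by
  set r := Real.sqrt (U * U') with hr
  have hr0 : 0 < r := Real.sqrt_pos.mpr (by positivity)
  have hr2 : r ^ 2 = U * U' := Real.sq_sqrt (by positivity)
  have h1 : p * r ≤ (X + X') / 2 := by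
    refine le_of_sq_le_sq ?_ (by positivity)
    rw [mul_pow, hr2, ← h]
    nlinarith [sq_nonneg (X - X')]
  have h2 : p / r ≤ (p / U + p / U') / 2 := by
    have h3 : p / U + p / U' = p * (U + U') / r ^ 2 := by
      rw [hr2]
      field_simp
      ring
    have h4 : r ≤ (U + U') / 2 := by
      refine le_of_sq_le_sq ?_ (by positivity)
      rw [hr2]
      nlinarith [sq_nonneg (U - U')]
    rw [h3, div_div, div_le_div_iff₀ hr0 (by positivity)]
    have h5 : 0 ≤ p * r * ((U + U') / 2 - r) * 2 := by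
      have := sub_nonneg.mpr h4
      positivity
    nlinarith
  have h6 : p ≤ (p * r + p / r) / 2 := by
    have h7 : 2 ≤ r + 1 / r := by
      rw [← sub_nonneg]
      have : r + 1 / r - 2 = (r - 1) ^ 2 / r := by
        field_simp
        ring
      rw [this]
      positivity
    have : p * r + p / r = p * (r + 1 / r) := by ring
    rw [this]
    nlinarith
  linarith

theorem abs_ineq {Ω T V : Type*} [DecidableEq Ω] [DecidableEq T] [DecidableEq V]
    (Q : Finset (Ω × T × T)) (tau : Ω × T × T → Ω × T × T) (P : Ω → T → V) (S : Finset V)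
    (h1 : ∀ c ∈ Q, tau c ∈ Q) (h2 : ∀ c ∈ Q, tau (tau c) = c) (h3 : ∀ c ∈ Q, (tau c).2 = c.2)
    (h4 : ∀ c ∈ Q, P (tau c).1 c.2.1 = P c.1 c.2.2)
    (h5 : ∀ c ∈ Q, P c.1 c.2.1 ∈ S)
    (h6 : ∀ v ∈ S, ∃ ξ θ, (ξ, θ, θ) ∈ Q ∧ P ξ θ = v)
    (h7 : ∀ c ∈ Q, ∀ c' ∈ Q, P c.1 c.2.1 = P c'.1 c'.2.1 → c.2 = c'.2 → c = c')
    (D : ℝ) (h8 : ∀ v ∈ S, ((Q.filter (fun c => P c.1 c.2.1 = v)).card : ℝ) ≤ D) :
    ∃ g : V → ℝ, (∀ v ∈ S, 0 < g v ∧ g v ≤ 1 ∧ 1 ≤ D * g v) ∧
      (S.card : ℝ) ≤ ∑ c ∈ Q, g (P c.1 c.2.1) * g (P c.1 c.2.2) /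
        ((∑ c' ∈ Q.filter (fun c' => c'.1 = c.1 ∧ c'.2.1 = c.2.1), g (P c'.1 c'.2.2)) *
         (∑ c' ∈ Q.filter (fun c' => c'.1 = c.1 ∧ c'.2.2 = c.2.2), g (P c'.1 c'.2.1))) := by
  classical
  -- names
  obtain ⟨Vf, hVf⟩ : ∃ f : Ω × T × T → V, f = fun c => P c.1 c.2.1 := ⟨_, rfl⟩
  obtain ⟨Vs, hVs⟩ : ∃ f : Ω × T × T → V, f = fun c => P c.1 c.2.2 := ⟨_, rfl⟩
  have eVf : ∀ c, P c.1 c.2.1 = Vf c := fun c => by rw [hVf]
  have eVs : ∀ c, P c.1 c.2.2 = Vs c := fun c => by rw [hVs]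
  have hT1 : ∀ c ∈ Q, Vf (tau c) = Vs c := by
    intro c hc
    rw [← eVf, ← eVs, h3 c hc, h4 c hc]
  have hT2 : ∀ c ∈ Q, Vs (tau c) = Vf c := by
    intro c hc
    rw [← hT1 (tau c) (h1 c hc), h2 c hc]
  have hS1 : ∀ c ∈ Q, Vf c ∈ S := fun c hc => by rw [← eVf]; exact h5 c hc
  have hS2 : ∀ c ∈ Q, Vs c ∈ S := fun c hc => by rw [← hT1 c hc]; exact hS1 _ (h1 c hc)
  have hsumtau : ∀ f : Ω × T × T → ℝ, ∑ c ∈ Q, f (tau c) = ∑ c ∈ Q, f c := by
    intro f
    refine Finset.sum_nbij' tau tau h1 h1 h2 h2 ?_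
    intro c _
    rfl
  have hinj : ∀ c ∈ Q, ∀ c' ∈ Q, tau c = tau c' → c = c' := by
    intro c hc c' hc' h
    rw [← h2 c hc, h, h2 c' hc']
  -- the matrix
  obtain ⟨g0, hg0, hg1⟩ := scaling
    (fun v u : {v // v ∈ S} => ((Q.filter (fun c => Vf c = v.1 ∧ Vs c = u.1)).card : ℝ))
    (by
      intro v u
      congr 1
      refine Finset.card_bij' (fun c _ => tau c) (fun c _ => tau c) ?_ ?_ ?_ ?_
      · intro c hc
        rw [Finset.mem_filter] at hc ⊢
        exact ⟨h1 c hc.1, (hT1 c hc.1).trans hc.2.2, (hT2 c hc.1).trans hc.2.1⟩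
      · intro c hc
        rw [Finset.mem_filter] at hc ⊢
        exact ⟨h1 c hc.1, (hT1 c hc.1).trans hc.2.2, (hT2 c hc.1).trans hc.2.1⟩
      · intro c hc
        exact h2 c (Finset.mem_filter.mp hc).1
      · intro c hc
        exact h2 c (Finset.mem_filter.mp hc).1)
    (fun v u => Nat.cast_nonneg _)
    (by
      intro v
      obtain ⟨ξ, θ, hm, hP⟩ := h6 v.1 v.2
      have : (ξ, θ, θ) ∈ Q.filter (fun c => Vf c = v.1 ∧ Vs c = v.1) := by
        rw [Finset.mem_filter]
        refine ⟨hm, ?_, ?_⟩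
        · rw [← eVf]; exact hP
        · rw [← eVs]; exact hP
      have := Finset.card_pos.mpr ⟨_, this⟩
      exact_mod_cast this)
  obtain ⟨g, hg⟩ : ∃ g : V → ℝ, ∀ v, g v = if h : v ∈ S then g0 ⟨v, h⟩ else 1 :=
    ⟨_, fun _ => rfl⟩
  have hgS : ∀ v : {v // v ∈ S}, g v.1 = g0 v := by
    intro v
    rw [hg, dif_pos v.2]
  have hgpos : ∀ v, 0 < g v := by
    intro v
    rw [hg]
    split_ifs with h
    · exact hg0 _
    · exact one_pos
  set p : Ω × T × T → ℝ := fun c => g (Vf c) * g (Vs c) with hp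
  have hppos : ∀ c, 0 < p c := fun c => mul_pos (hgpos _) (hgpos _)
  have hptau : ∀ c ∈ Q, p (tau c) = p c := by
    intro c hc
    simp only [hp]
    rw [hT1 c hc, hT2 c hc, mul_comm]
  -- scaling equation
  have hscal : ∀ v ∈ S, g v * ∑ u ∈ S, ((Q.filter (fun c => Vf c = v ∧ Vs c = u)).card : ℝ) * g u
      = 1 := by
    intro v hv
    have := hg1 ⟨v, hv⟩
    rw [← hgS ⟨v, hv⟩] at this
    rw [← this]
    congr 1
    rw [← Finset.sum_coe_sort S]
    refine Finset.sum_congr rfl fun u _ => ?_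
    rw [hgS]
  have hone : ∀ v ∈ S, ∑ c ∈ Q.filter (fun c => Vf c = v), p c = 1 := by
    intro v hv
    rw [← hscal v hv, Finset.mul_sum]
    rw [← Finset.sum_fiberwise_of_maps_to (s := Q.filter (fun c => Vf c = v)) (t := S) (g := Vs)
      (fun c hc => hS2 c (Finset.mem_filter.mp hc).1)]
    refine Finset.sum_congr rfl fun u _ => ?_
    rw [Finset.filter_filter]
    have : ∀ c ∈ Q.filter (fun c => Vf c = v ∧ Vs c = u), p c = g v * g u := by
      intro c hc
      have := (Finset.mem_filter.mp hc).2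
      simp only [hp]
      rw [this.1, this.2]
    rw [Finset.sum_congr rfl this, Finset.sum_const, nsmul_eq_mul]
    ring
  have hsump : ∑ c ∈ Q, p c = S.card := by
    rw [← Finset.sum_fiberwise_of_maps_to (s := Q) (t := S) (g := Vf) hS1]
    rw [Finset.sum_congr rfl hone, Finset.sum_const, nsmul_eq_mul, mul_one]
  -- bounds of g
  have hgle : ∀ v ∈ S, g v ≤ 1 := by
    intro v hv
    obtain ⟨ξ, θ, hm, hP⟩ := h6 v hv
    have hmem : (ξ, θ, θ) ∈ Q.filter (fun c => Vf c = v) := by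
      rw [Finset.mem_filter]
      exact ⟨hm, by rw [← eVf]; exact hP⟩
    have h9 := Finset.single_le_sum (f := p) (fun c _ => (hppos c).le) hmem
    rw [hone v hv] at h9
    have h10 : p (ξ, θ, θ) = g v * g v := by
      simp only [hp, ← eVf, ← eVs]
      rw [hP]
    rw [h10] at h9
    have := hgpos v
    nlinarith
  have hgD : ∀ v ∈ S, 1 ≤ D * g v := by
    intro v hv
    rw [← hone v hv]
    have h9 : ∑ c ∈ Q.filter (fun c => Vf c = v), p c ≤
        ∑ c ∈ Q.filter (fun c => Vf c = v), g v := by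
      refine Finset.sum_le_sum fun c hc => ?_
      rw [Finset.mem_filter] at hc
      simp only [hp]
      rw [hc.2]
      exact mul_le_of_le_one_right (hgpos v).le (hgle _ (hS2 c hc.1))
    refine h9.trans ?_
    rw [Finset.sum_const, nsmul_eq_mul]
    refine mul_le_mul_of_nonneg_right ?_ (hgpos v).le
    have := h8 v hv
    simp only [eVf] at this
    exact this
  refine ⟨g, fun v hv => ⟨hgpos v, hgle v hv, hgD v hv⟩, ?_⟩
  -- al, bt
  set bt : Ω × T × T → ℝ := fun c =>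
    ∑ c' ∈ Q.filter (fun c' => c'.1 = c.1 ∧ c'.2.1 = c.2.1), g (P c'.1 c'.2.2) with hbt
  set al : Ω × T × T → ℝ := fun c =>
    ∑ c' ∈ Q.filter (fun c' => c'.1 = c.1 ∧ c'.2.2 = c.2.2), g (P c'.1 c'.2.1) with hal
  have hbtpos : ∀ c ∈ Q, 0 < bt c := by
    intro c hc
    refine Finset.sum_pos (fun _ _ => hgpos _) ⟨c, ?_⟩
    rw [Finset.mem_filter]
    exact ⟨hc, rfl, rfl⟩
  have halpos : ∀ c ∈ Q, 0 < al c := by
    intro c hc
    refine Finset.sum_pos (fun _ _ => hgpos _) ⟨c, ?_⟩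
    rw [Finset.mem_filter]
    exact ⟨hc, rfl, rfl⟩
  set X : Ω × T × T → ℝ := fun c => g (Vf c) ^ 2 * bt c * al (tau c) with hX
  have hXpos : ∀ c ∈ Q, 0 ≤ X c := by
    intro c hc
    have := hbtpos c hc
    have := halpos _ (h1 c hc)
    have := hgpos (Vf c)
    simp only [hX]
    positivity
  have hXv : ∀ v ∈ S, ∑ c ∈ Q.filter (fun c => Vf c = v), X c ≤ 1 := by
    intro v hv
    set Cv := Q.filter (fun c => Vf c = v) with hCv
    set A : T → ℝ := fun s => ∑ c' ∈ Cv.filter (fun c' => c'.2.1 = s), p c' with hA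
    set B : T → ℝ := fun s => ∑ c' ∈ Cv.filter (fun c' => c'.2.2 = s), p c' with hB
    have hA0 : ∀ s, 0 ≤ A s := fun s => Finset.sum_nonneg fun c _ => (hppos c).le
    have hB0 : ∀ s, 0 ≤ B s := fun s => Finset.sum_nonneg fun c _ => (hppos c).le
    have ha : ∀ c ∈ Cv, g v * bt c ≤ A c.2.1 := by
      intro c hc
      rw [hCv, Finset.mem_filter] at hc
      simp only [hbt, hA]
      rw [Finset.mul_sum]
      have e1 : ∀ c' ∈ Q.filter (fun c' => c'.1 = c.1 ∧ c'.2.1 = c.2.1),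
          Vf c' = v := by
        intro c' hc'
        rw [Finset.mem_filter] at hc'
        rw [← eVf, hc'.2.1, hc'.2.2, eVf]
        exact hc.2
      have e2 : ∀ c' ∈ Q.filter (fun c' => c'.1 = c.1 ∧ c'.2.1 = c.2.1),
          g v * g (P c'.1 c'.2.2) = p c' := by
        intro c' hc'
        simp only [hp]
        rw [e1 c' hc', eVs]
      rw [Finset.sum_congr rfl e2]
      refine Finset.sum_le_sum_of_subset_of_nonneg ?_ fun c _ _ => (hppos c).le
      intro c' hc'
      have e3 := e1 c' hc'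
      rw [Finset.mem_filter] at hc'
      rw [Finset.mem_filter, hCv, Finset.mem_filter]
      exact ⟨⟨hc'.1, e3⟩, hc'.2.2⟩
    have hb : ∀ c ∈ Cv, g v * al (tau c) ≤ B c.2.2 := by
      intro c hc
      rw [hCv, Finset.mem_filter] at hc
      simp only [hal, hB]
      rw [Finset.mul_sum]
      have e1 : ∀ c' ∈ Q.filter (fun c' => c'.1 = (tau c).1 ∧ c'.2.2 = (tau c).2.2),
          Vs c' = v := by
        intro c' hc'
        rw [Finset.mem_filter] at hc'
        rw [← eVs, hc'.2.1, hc'.2.2, eVs, hT2 c hc.1]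
        exact hc.2
      have e2 : ∀ c' ∈ Q.filter (fun c' => c'.1 = (tau c).1 ∧ c'.2.2 = (tau c).2.2),
          g v * g (P c'.1 c'.2.1) = p (tau c') := by
        intro c' hc'
        rw [hptau c' (Finset.mem_filter.mp hc').1]
        simp only [hp]
        rw [e1 c' hc', eVf, mul_comm]
      rw [Finset.sum_congr rfl e2]
      rw [← Finset.sum_image (g := tau) (f := p) (s := Q.filter
        (fun c' => c'.1 = (tau c).1 ∧ c'.2.2 = (tau c).2.2))]
      · refine Finset.sum_le_sum_of_subset_of_nonneg ?_ fun c _ _ => (hppos c).le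
        intro c'' hc''
        rw [Finset.mem_image] at hc''
        obtain ⟨c', hc', rfl⟩ := hc''
        have e3 := e1 c' hc'
        rw [Finset.mem_filter] at hc'
        rw [Finset.mem_filter, hCv, Finset.mem_filter]
        refine ⟨⟨h1 c' hc'.1, (hT1 c' hc'.1).trans e3⟩, ?_⟩
        rw [h3 c' hc'.1, hc'.2.2, h3 c hc.1]
      · intro x hx y hy hxy
        exact hinj x (Finset.mem_filter.mp hx).1 y (Finset.mem_filter.mp hy).1 hxy
    have hAs : ∑ s ∈ Cv.image (fun c => c.2.1), A s = 1 := by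
      rw [← hone v hv]
      exact Finset.sum_fiberwise_of_maps_to (fun c hc => Finset.mem_image_of_mem _ hc) _
    have hBs : ∑ s ∈ Cv.image (fun c => c.2.2), B s = 1 := by
      rw [← hone v hv]
      exact Finset.sum_fiberwise_of_maps_to (fun c hc => Finset.mem_image_of_mem _ hc) _
    calc ∑ c ∈ Cv, X c ≤ ∑ c ∈ Cv, A c.2.1 * B c.2.2 := by
          refine Finset.sum_le_sum fun c hc => ?_
          have hc' := hc
          rw [hCv, Finset.mem_filter] at hc'
          have e : X c = (g v * bt c) * (g v * al (tau c)) := by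
            simp only [hX]
            rw [hc'.2]
            ring
          rw [e]
          have := hbtpos c hc'.1
          have := halpos _ (h1 c hc'.1)
          have := hgpos v
          exact mul_le_mul (ha c hc) (hb c hc) (by positivity) (hA0 _)
      _ = ∑ x ∈ Cv.image (fun c => c.2), A x.1 * B x.2 := by
          rw [Finset.sum_image]
          intro c hc c' hc' h
          have hc1 := Finset.mem_filter.mp hc
          have hc2 := Finset.mem_filter.mp hc'
          refine h7 c hc1.1 c' hc2.1 ?_ h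
          rw [eVf, eVf, hc1.2, hc2.2]
      _ ≤ ∑ x ∈ (Cv.image (fun c => c.2.1)) ×ˢ (Cv.image (fun c => c.2.2)), A x.1 * B x.2 := by
          refine Finset.sum_le_sum_of_subset_of_nonneg ?_ ?_
          · intro x hx
            rw [Finset.mem_image] at hx
            obtain ⟨c, hc, rfl⟩ := hx
            rw [Finset.mem_product]
            exact ⟨Finset.mem_image_of_mem _ hc, Finset.mem_image_of_mem (fun c => c.2.2) hc⟩
          · intro x _ _
            exact mul_nonneg (hA0 _) (hB0 _)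
      _ = (∑ s ∈ Cv.image (fun c => c.2.1), A s) * (∑ s ∈ Cv.image (fun c => c.2.2), B s) := by
          rw [Finset.sum_product, Finset.sum_mul_sum]
      _ = 1 := by rw [hAs, hBs, mul_one]
  have hsumX : ∑ c ∈ Q, X c ≤ S.card := by
    rw [← Finset.sum_fiberwise_of_maps_to (s := Q) (t := S) (g := Vf) hS1]
    refine (Finset.sum_le_sum hXv).trans ?_
    rw [Finset.sum_const, nsmul_eq_mul, mul_one]
  -- pointwise
  have hpt : ∀ c ∈ Q, p c ≤ (X c + X (tau c)) / 4 +
      (p c / (al c * bt c) + p (tau c) / (al (tau c) * bt (tau c))) / 4 := by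
    intro c hc
    rw [hptau c hc]
    refine ineq_pt (hppos c) (mul_pos (halpos c hc) (hbtpos c hc))
      (mul_pos (halpos _ (h1 c hc)) (hbtpos _ (h1 c hc))) (hXpos c hc) (hXpos _ (h1 c hc)) ?_
    simp only [hX, hp]
    rw [hT1 c hc, h2 c hc]
    ring
  have hfin : (S.card : ℝ) ≤ (S.card : ℝ) / 2 + (∑ c ∈ Q, p c / (al c * bt c)) / 2 := by
    calc (S.card : ℝ) = ∑ c ∈ Q, p c := hsump.symm
      _ ≤ ∑ c ∈ Q, ((X c + X (tau c)) / 4 +
          (p c / (al c * bt c) + p (tau c) / (al (tau c) * bt (tau c))) / 4) :=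
          Finset.sum_le_sum hpt
      _ = (∑ c ∈ Q, X c + ∑ c ∈ Q, X (tau c)) / 4 + (∑ c ∈ Q, p c / (al c * bt c) +
          ∑ c ∈ Q, p (tau c) / (al (tau c) * bt (tau c))) / 4 := by
          rw [Finset.sum_add_distrib, ← Finset.sum_div, ← Finset.sum_div,
            Finset.sum_add_distrib, Finset.sum_add_distrib]
      _ = (∑ c ∈ Q, X c) / 2 + (∑ c ∈ Q, p c / (al c * bt c)) / 2 := by
          rw [hsumtau X, hsumtau (fun c => p c / (al c * bt c))]
          ring
      _ ≤ _ := by linarith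
  have hfin2 : (S.card : ℝ) ≤ ∑ c ∈ Q, p c / (al c * bt c) := by linarith
  refine hfin2.trans (le_of_eq ?_)
  refine Finset.sum_congr rfl fun c _ => ?_
  simp only [hp, hal, hbt]
  rw [mul_comm (∑ c' ∈ Q.filter (fun c' => c'.1 = c.1 ∧ c'.2.2 = c.2.2), g (P c'.1 c'.2.1)),
    ← eVf, ← eVs]

end Pool.Agent.H977R3
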