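import Pool.Agent.H977R3.SumAux
import Pool.Agent.H977R3.Main

/-!
T9: polylogarithmic bound on the expected number of foldable cut levels.
-/

namespace Pool.Agent.H977R3

open Pool.Agent.H977R2 (Saw Adj Cut Up fl zf ct SawSet mem_SawSet)
open H981 (FBr BrSet mem_BrSet)

theorem sum_JA_polylog (N W : ℕ) :
    ((∑ w ∈ BrSet N W, (H981.JA N W w).card : ℕ) : ℝ) ≤
      40 * (Nat.log 2 W + 2) ^ 3 * (1 + 3 * Real.log N) * ((BrSet N (4 * W)).card : ℝ) :=
  sum_JA_polylog_of (fun _ _ _ _ hN hA hB => card_VV_le hN hA hB) N W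

theorem coeff_Es_le (N W : ℕ) :
    PowerSeries.coeff N (H981.Es W) ≤
      ENNReal.ofReal (2 + 80 * (Nat.log 2 (2 * W) + 2) ^ 3 * (1 + 3 * Real.log N)) *
        PowerSeries.coeff N (H981.Us (8 * W)) :=
  coeff_Es_le_of N W (sum_JA_polylog N (2 * W))

end Pool.Agent.H977R3
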