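import Pool.Agent.H981R2.FoldW

/-!
Definitions for the polylogarithmic bound on the expected number of foldable cut levels of
planar self-avoiding bridges (pairs of pivots and T-moves).
-/

namespace Pool.Agent.H977R3

open Pool.Agent.H977R2 (Saw Adj Cut Up fl zf ct SawSet mem_SawSet)
open H981 (FBr BrSet mem_BrSet)

/-- a walk, as a function of time -/
abbrev Wk := ℕ → ℤ × ℤ

/-- Reflect the part after time `t` in the vertical line through the position at time `t`. -/
def rf (w : Wk) (t : ℕ) : Wk := fl w (w t).1 t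

/-- The T-move at the times `t ≤ t'`: reflect after `t'`, then reflect after `t`. -/
def tm (w : Wk) (t t' : ℕ) : Wk := zf w (w t).1 (w t').1 t t'

/-- Local self-avoidance: all collisions are between a time before `ta` and a time after `td`. -/
def LS (N ta td : ℕ) (v : Wk) : Prop :=
  ∀ i k, i < k → k ≤ N → (ta ≤ i ∨ k ≤ td) → v i ≠ v k

/-- `t` is a cut time. -/
def CT (N : ℕ) (w : Wk) (t : ℕ) : Prop := Cut N w (w t).1 t

/-- The class of bridges of length `N` with windows: `ta` is the first cut time at level at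
least `A`, its level is less than `A + l`; `td` is the last cut time at distance at least `B`
from the end level, the distance being less than `B + l`. -/
structure Om (N : ℕ) (l A B : ℤ) (ta td : ℕ) (w : Wk) : Prop where
  br : FBr N w
  cta : CT N w ta
  ctd : CT N w td
  le : ta ≤ td
  a1 : A ≤ (w ta).1
  a2 : (w ta).1 < A + l
  amin : ∀ t, CT N w t → A ≤ (w t).1 → ta ≤ t
  b1 : B ≤ (w N).1 - (w td).1
  b2 : (w N).1 - (w td).1 < B + l
  bmax : ∀ t, CT N w t → B ≤ (w N).1 - (w t).1 → t ≤ td

/-- forward pivots -/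
structure GF (N : ℕ) (l : ℤ) (ta td : ℕ) (w : Wk) (t : ℕ) : Prop where
  h1 : ta ≤ t
  h2 : t ≤ td
  up : Up w t
  mx : ∀ i, i ≤ t → (w i).1 ≤ (w t).1
  win : (w t).1 - (w ta).1 < l
  ls : LS N ta td (rf w t)

/-- backward pivots -/
structure GB (N : ℕ) (l : ℤ) (ta td : ℕ) (w : Wk) (t : ℕ) : Prop where
  h1 : ta ≤ t
  h2 : t ≤ td
  up : Up w t
  mn : ∀ i, t < i → (w t).1 < (w i).1
  win : (w td).1 - (w t).1 < l
  ls : LS N ta td (rf w t)

/-- geometric part of the condition on pairs of pivots -/
structure PQ (N : ℕ) (l A B : ℤ) (ta td : ℕ) (w : Wk) (t t' : ℕ) : Prop where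
  om : Om N l A B ta td w
  gf : GF N l ta td w t
  gb : GB N l ta td w t'
  le : t ≤ t'
  c1 : ∀ i, t < i → i ≤ t' → (w i).1 < 2 * (w t).1 - (w ta).1
  c2 : ∀ i, t ≤ i → i ≤ t' → 2 * (w t').1 - (w td).1 ≤ (w i).1

/-- folded objects -/
def IsV (N : ℕ) (l A B : ℤ) (v : Wk) : Prop :=
  ∃ w ta td j, Om N l A B ta td w ∧ GF N l ta td w j ∧ GB N l ta td w j ∧ v = rf w j

/-- The relation between pivots `t` and `t'` of `w`. -/
def QP (N : ℕ) (l A B : ℤ) (w : Wk) (t t' : ℕ) : Prop :=
  (∃ ta td, PQ N l A B ta td w t t') ∧ IsV N l A B (rf w t) ∧ IsV N l A B (rf w t')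

open scoped Classical in
/-- the finite set of triples -/
noncomputable def QQ (N : ℕ) (l A B : ℤ) : Finset (Wk × ℕ × ℕ) :=
  (SawSet N ×ˢ (Finset.range N ×ˢ Finset.range N)).filter (fun c => QP N l A B c.1 c.2.1 c.2.2)

open scoped Classical in
/-- the finite set of folded objects -/
noncomputable def VV (N : ℕ) (l A B : ℤ) : Finset Wk :=
  ((SawSet N ×ˢ Finset.range N).image (fun c => rf c.1 c.2)).filter (IsV N l A B)

open scoped Classical in
/-- the pivot pairs of a walk, as a finite set -/
noncomputable def RR (N : ℕ) (l A B : ℤ) (w : Wk) : Finset (ℕ × ℕ) :=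
  (Finset.range N ×ˢ Finset.range N).filter (fun c => QP N l A B w c.1 c.2)

open scoped Classical in
/-- the walks which have a pair of pivots -/
noncomputable def WW (N : ℕ) (l A B : ℤ) : Finset Wk :=
  (SawSet N).filter (fun w => ∃ t t', QP N l A B w t t')

end Pool.Agent.H977R3
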