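import Pool.Agent.H977R3.Defs

/-!
T4: planarity for pairs of pivots (helper594), a generalisation of `Pool.Agent.H977R2.planar`.
-/

namespace Pool.Agent.H977R3

open Pool.Agent.H977R2 (Saw Adj Cut Up fl zf ct SawSet mem_SawSet)
open Pool.Agent.H977R2
open H981 (FBr BrSet mem_BrSet)

/-- mirror identity for the parity count -/
theorem U_mirror (w γ : ℕ → ℤ × ℤ) (j : ℤ) (hγ : ∀ i, γ i = (2 * j - (w i).1, (w i).2))
    (a b : ℕ) (x y : ℤ) : U γ a b x y = U w a b (2 * j - x + 1) y := by
  unfold U
  refine Finset.sum_congr rfl (fun i _ => ?_)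
  rw [hγ, hγ]
  simp only [eInd]
  split_ifs <;> first | rfl | (exfalso; omega)

theorem planar2 {N : ℕ} {l A B : ℤ} {ta td t t' : ℕ} {w : Wk} (hlA : l ≤ A) (hlB : l ≤ B)
    (h : PQ N l A B ta td w t t') (htt : t < t') (hop : (w t).1 < (w t').1) :
    ∀ i k, i ≤ t → t' < k → k ≤ N → w i ≠ ((w k).1 - 2 * ((w t').1 - (w t).1), (w k).2) := by
  intro i k hi hk hkN heq
  have hw : Saw N w := h.om.br.saw
  obtain ⟨taN, cta1, cta2⟩ := h.om.cta
  obtain ⟨tdN, ctd1, ctd2⟩ := h.om.ctd
  have sta := Cut.spec hw h.om.cta
  have std := Cut.spec hw h.om.ctd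
  have a1 := h.om.a1
  have a2 := h.om.a2
  have b1 := h.om.b1
  have b2 := h.om.b2
  have gf1 := h.gf.h1
  have gf2 := h.gf.h2
  have oj := h.gf.up
  have mx := h.gf.mx
  have win1 := h.gf.win
  have ls1 := h.gf.ls
  have gb1 := h.gb.h1
  have gb2 := h.gb.h2
  have oj' := h.gb.up
  have mn := h.gb.mn
  have win2 := h.gb.win
  have ls2 := h.gb.ls
  have hx0 : (w 0).1 = 0 := by rw [hw.zero]
  have hc1 := h.c1 t' htt le_rfl
  have hc2 := h.c2 t le_rfl htt.le
  have haj := mx ta gf1
  have hj0 := mx 0 (by omega)
  have hjd := ctd1 t' gb2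
  have htN : t' < N := by omega
  -- coordinates
  obtain ⟨j, hj⟩ : ∃ j, (w t).1 = j := ⟨_, rfl⟩
  obtain ⟨j', hj'⟩ : ∃ j', (w t').1 = j' := ⟨_, rfl⟩
  obtain ⟨a, ha⟩ : ∃ a, (w ta).1 = a := ⟨_, rfl⟩
  obtain ⟨d, hd⟩ : ∃ d, (w td).1 = d := ⟨_, rfl⟩
  rw [hj, hj'] at heq
  simp only [rf] at ls1 ls2
  rw [hj] at ls1 hop haj hj0 win1 hc1 hc2
  rw [hj'] at ls2 hop hjd win2 hc1 hc2
  rw [ha] at a1 a2 haj win1 hc1 sta cta1 cta2
  rw [hd] at b1 b2 win2 hc2 hjd std ctd1 ctd2
  simp only [hj] at mx
  simp only [hj'] at mn
  have E1 : 2 * j - a ≤ (w N).1 := by omega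
  have E2 : d ≤ 2 * j' := by omega
  -- the reflected walk
  obtain ⟨γ, hγ⟩ : ∃ γ : ℕ → ℤ × ℤ, ∀ i, γ i = (2 * j - (w i).1, (w i).2) := ⟨_, fun _ => rfl⟩
  obtain ⟨V, hV⟩ : ∃ V : ℕ → ℤ × ℤ, ∀ i, V i = ((w i).1 - 2 * (j' - j), (w i).2) :=
    ⟨_, fun _ => rfl⟩
  have hγadj : ∀ i, i < N → Adj (γ i) (γ (i + 1)) := by
    intro i hi
    have := hw.adj i hi
    rw [hγ, hγ]
    unfold Adj at *
    simp only
    omega
  have hVadj : ∀ i, i < N → Adj (V i) (V (i + 1)) := by
    intro i hi
    have := hw.adj i hi
    rw [hV, hV]
    unfold Adj at *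
    simp only
    omega
  have hxe : (w i).1 = (w k).1 - 2 * (j' - j) := congrArg Prod.fst heq
  have hye : (w i).2 = (w k).2 := by
    have h0 := congrArg Prod.snd heq
    simpa using h0
  have hxk := mn k hk
  have hxi := mx i hi
  -- the case i = t
  rcases Nat.lt_or_ge i t with hit | hit
  swap
  · have hit : i = t := le_antisymm hi hit
    subst hit
    have h1 : fl w j' t' i = fl w j' t' k := by
      rw [fl_le (by omega), fl_gt hk]
      ext
      · simp only; omega
      · simp only; exact hye
    exact ls2 i k (by omega) hkN (Or.inl gf1) h1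
  have hita : ta < i := by
    by_contra hcon
    have := cta1 i (by omega)
    omega
  have hktd : k ≤ td := by
    by_contra hcon
    have := ctd2 k (by omega)
    omega
  -- claim 1
  have c1 : U γ t N (w i).1 (w i).2 = 1 := by
    have h1 := U_const γ w t N i (t - 1) (a + 1) j (by omega) (by omega)
      (fun l _ h2 => hγadj l h2) (fun l _ h2 => hw.adj l (by omega))
      (fun l h1 h2 => ⟨cta2 l (by omega), mx l (by omega)⟩)
      (by
        intro l h1 h2 n h3 h4 h5
        rcases Nat.eq_or_lt_of_le h3 with h6 | h6
        · subst h6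
          have : w t = w l := by
            rw [← h5, hγ]
            ext <;> simp [hj]; omega
          have := hw.inj t l (by omega) (by omega) this
          omega
        · have h7 : fl w j t l = fl w j t n := by
            rw [fl_gt h6, fl_le (by omega), ← hγ, h5]
          exact ls1 l n (by omega) h4 (Or.inl (by omega)) h7)
      (by rw [hγ]; simp only; omega)
      (by rw [hγ]; simp only; omega)
    rw [h1, oj.2, hj]
    simp only
    rw [U_mirror w γ j hγ, show 2 * j - j + 1 = j + 1 by ring]
    -- horizontal relation at the point just below `w t`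
    have hwt1 : w (t - 1) = (j, (w t).2 - 1) := by rw [oj.2, hj]
    have ht1 := oj.1
    have h2 := U_horiz w t N (by omega) j ((w t).2 - 1)
      (fun l _ h2 => hw.adj l h2)
      (by
        intro l h3 h4 h5
        rw [← hwt1] at h5
        have := hw.inj l (t - 1) h4 (by omega) h5
        omega)
    have h3 : sIn (w t) j ((w t).2 - 1) = 1 := by
      unfold sIn
      rw [if_pos]
      omega
    have h4 : sIn (w N) j ((w t).2 - 1) = 0 := by
      unfold sIn
      rw [if_neg]
      have := mn N (by omega)
      omega
    have h5 : U w t N j ((w t).2 - 1) = 0 := by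
      have h6 := U_const w w t N (ta + 1) (t - 1) (a + 1) j (by omega) (by omega)
        (fun l _ h2 => hw.adj l h2) (fun l _ h2 => hw.adj l (by omega))
        (fun l h1 h2 => ⟨cta2 l (by omega), mx l (by omega)⟩)
        (by
          intro l h1 h2 n h3 h4 h5
          have := hw.inj n l h4 (by omega) h5
          omega)
        (by omega) (by right; have := mn N (by omega); omega)
      rw [hwt1] at h6
      simp only at h6
      rw [← h6]
      apply U_eq_zero
      intro l h7 h8
      right
      have := cta2 l (by omega)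
      have := cta2 (l + 1) (by omega)
      have := sta.2.1
      omega
    rw [h3, h4, h5, zero_add, add_zero] at h2
    exact h2
  -- claim 2
  have hadj' := hw.adj t' htN
  have hmn' := mn (t' + 1) (by omega)
  have hwt' : (w (t' + 1)).1 = j' + 1 ∧ (w (t' + 1)).2 = (w t').2 := by
    unfold Adj at hadj'
    omega
  have c2 : U γ 0 t' (V k).1 (V k).2 = 0 := by
    have h1 := U_const γ V 0 t' (t' + 1) k (2 * j - j' + 1) (d - 2 * (j' - j)) (by omega) hk
      (fun l _ h2 => hγadj l (by omega)) (fun l _ h2 => hVadj l (by omega))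
      (by
        intro l h1 h2
        have h3 := mn l (by omega)
        have h4 := ctd1 l (by omega)
        rw [hV]
        simp only
        omega)
      (by
        intro l h1 h2 n h3 h4 h5
        have h6 : fl w j' t' n = fl w j' t' l := by
          rw [fl_le h4, fl_gt (by omega)]
          rw [hγ, hV, Prod.mk.injEq] at h5
          ext
          · simp only; omega
          · simp only; exact h5.2
        exact ls2 n l (by omega) (by omega) (Or.inr (by omega)) h6)
      (by rw [hγ, hx0]; simp only; omega)
      (by rw [hγ, hj']; simp only; omega)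
    rw [← h1]
    have hV1 : V (t' + 1) = (2 * j - j' + 1, (w t').2) := by
      rw [hV, hwt'.1, hwt'.2]
      ext <;> simp; omega
    rw [hV1]
    simp only
    rw [U_mirror w γ j hγ, show 2 * j - (2 * j - j' + 1) + 1 = j' by ring]
    have ht1 : t' - 1 + 1 = t' := by have := oj'.1; omega
    have hwt1 : w (t' - 1) = (j', (w t').2 - 1) := by rw [oj'.2, hj']
    rw [U_split w (a := 0) (b := t' - 1) (c := t') (by omega) (by omega)]
    have h2 : U w (t' - 1) t' j' (w t').2 = 0 := by
      unfold U
      refine Finset.sum_eq_zero (fun m hm => ?_)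
      rw [Finset.mem_Ico] at hm
      have : m = t' - 1 := by omega
      subst this
      rw [ht1, hwt1]
      unfold eInd
      rw [if_neg]
      simp only
      omega
    rw [h2, add_zero]
    have h3 := U_horiz w 0 (t' - 1) (by omega) j' (w t').2
      (fun l _ h2 => hw.adj l (by omega))
      (by
        intro l h3 h4 h5
        have h6 : w l = w t' := by rw [h5, ← hj']
        have := hw.inj l t' (by omega) (by omega) h6
        omega)
    have h5 : sIn (w 0) j' (w t').2 = 0 := by
      unfold sIn
      rw [if_neg]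
      rw [hx0]
      omega
    have h6 : sIn (w (t' - 1)) j' (w t').2 = 0 := by
      unfold sIn
      rw [if_neg]
      rw [hwt1]
      simp only
      omega
    have h4 : U w 0 (t' - 1) (j' + 1) (w t').2 = 0 := by
      have h7 := U_const w w 0 (t' - 1) (t' + 1) (td + 1) (j' + 1) (d + 1) (by omega) (by omega)
        (fun l _ h2 => hw.adj l (by omega)) (fun l _ h2 => hw.adj l (by omega))
        (by
          intro l h8 h9
          have h10 := mn l (by omega)
          refine ⟨by omega, ?_⟩
          rcases Nat.eq_or_lt_of_le h9 with h11 | h11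
          · rw [h11]; omega
          · have := ctd1 l (by omega); omega)
        (by
          intro l h8 h9 n h10 h11 h12
          have := hw.inj n l (by omega) (by omega) h12
          omega)
        (by omega) (by left; rw [hwt1]; simp only; omega)
      rw [hwt'.1, hwt'.2] at h7
      rw [h7]
      apply U_eq_zero
      intro l h8 h9
      left
      have := ctd1 l (by omega)
      have := ctd1 (l + 1) (by omega)
      have := std.2.1
      omega
    rw [h4, h5, h6, add_zero, add_zero] at h3
    exact h3
  -- claim 3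
  have c3 : U γ t N (w i).1 (w i).2 = U γ 0 t' (w i).1 (w i).2 := by
    rw [U_split γ (a := t) (b := t') (c := N) (by omega) (by omega),
      U_split γ (a := 0) (b := t) (c := t') (by omega) (by omega)]
    have h1 : U γ t' N (w i).1 (w i).2 = 0 := by
      apply U_eq_zero
      intro l h1 h2
      left
      rw [hγ, hγ]
      have h3 := mn (l + 1) (by omega)
      have h4 : j' ≤ (w l).1 := by
        rcases Nat.eq_or_lt_of_le h1 with h5 | h5
        · rw [← h5]; omega
        · have := mn l h5; omega
      simp only
      omega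
    have h2 : U γ 0 t (w i).1 (w i).2 = 0 := by
      apply U_eq_zero
      intro l h1 h2
      right
      rw [hγ, hγ]
      have := mx l (by omega)
      have := mx (l + 1) (by omega)
      simp only
      omega
    rw [h1, h2, add_zero, zero_add]
  have hVk : V k = w i := by rw [hV, ← heq]
  rw [hVk] at c2
  rw [c3, c2] at c1
  exact absurd c1 (by decide)

end Pool.Agent.H977R3
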