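import Mathlib

set_option autoImplicit false

/-! Symmetric (Sinkhorn) scaling. -/

namespace Pool.Agent.H977R3

/-- Symmetric scaling of a nonnegative symmetric matrix with diagonal at least one. -/
theorem scaling {V : Type*} [Fintype V] (M : V → V → ℝ) (hsym : ∀ v u, M v u = M u v)
    (hnn : ∀ v u, 0 ≤ M v u) (hd : ∀ v, 1 ≤ M v v) :
    ∃ g : V → ℝ, (∀ v, 0 < g v) ∧ ∀ v, g v * ∑ u, M v u * g u = 1 := by
  classical
  let F : (V → ℝ) → ℝ := fun x =>
    (1 / 2) * ∑ v, ∑ u, M v u * Real.exp (x v + x u) - ∑ v, x v
  have hcont : Continuous F := by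
    change Continuous fun x : V → ℝ =>
      (1 / 2) * ∑ v, ∑ u, M v u * Real.exp (x v + x u) - ∑ v, x v
    fun_prop
  have hone : ∀ s : ℝ, |s| - 2 ≤ (1 / 2) * Real.exp (2 * s) - s := by
    intro s
    rcases le_total s 0 with h | h
    · rw [abs_of_nonpos h]
      have := Real.exp_pos (2 * s)
      linarith
    · rw [abs_of_nonneg h]
      have h2 := Real.quadratic_le_exp_of_nonneg (x := 2 * s) (by linarith)
      nlinarith [sq_nonneg (s - 1)]
  have hlow : ∀ x : V → ℝ, ∑ v, (|x v| - 2) ≤ F x := by
    intro x
    change _ ≤ (1 / 2) * ∑ v, ∑ u, M v u * Real.exp (x v + x u) - ∑ v, x v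
    rw [Finset.mul_sum, ← Finset.sum_sub_distrib]
    apply Finset.sum_le_sum
    intro v _
    refine (hone (x v)).trans ?_
    have h1 : M v v * Real.exp (x v + x v) ≤ ∑ u, M v u * Real.exp (x v + x u) :=
      Finset.single_le_sum (f := fun u => M v u * Real.exp (x v + x u))
        (fun u _ => mul_nonneg (hnn v u) (Real.exp_pos _).le) (Finset.mem_univ v)
    have h2 : Real.exp (2 * x v) ≤ M v v * Real.exp (x v + x v) := by
      rw [two_mul]
      nlinarith [Real.exp_pos (x v + x v), hd v]
    linarith
  obtain ⟨x, hx⟩ : ∃ x, ∀ y, F x ≤ F y := by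
    let R : ℝ := 2 * Fintype.card V + |F 0| + 1
    have hR : 0 ≤ R := by
      have := abs_nonneg (F 0)
      have h2 : (0 : ℝ) ≤ Fintype.card V := Nat.cast_nonneg _
      change 0 ≤ 2 * (Fintype.card V : ℝ) + |F 0| + 1
      linarith
    have hK : IsCompact (Set.univ.pi fun _ : V => Set.Icc (-R) R) :=
      isCompact_univ_pi fun _ => isCompact_Icc
    have h0K : (0 : V → ℝ) ∈ (Set.univ.pi fun _ : V => Set.Icc (-R) R) := by
      intro v _
      exact ⟨by simpa using hR, by simpa using hR⟩
    obtain ⟨x, hxK, hx⟩ := hK.exists_isMinOn ⟨0, h0K⟩ hcont.continuousOn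
    refine ⟨x, fun y => ?_⟩
    by_cases hy : y ∈ (Set.univ.pi fun _ : V => Set.Icc (-R) R)
    · exact hx hy
    · have hex : ∃ v, R < |y v| := by
        by_contra hcon
        push Not at hcon
        exact hy fun v _ => abs_le.mp (hcon v)
      obtain ⟨v, hv⟩ := hex
      have h1 : |y v| - 2 * Fintype.card V ≤ ∑ w, (|y w| - 2) := by
        rw [Finset.sum_sub_distrib, Finset.sum_const, Finset.card_univ, nsmul_eq_mul]
        have := Finset.single_le_sum (f := fun w => |y w|) (fun w _ => abs_nonneg _)
          (Finset.mem_univ v)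
        linarith
      have h2 := hlow y
      have h3 : F x ≤ F 0 := hx h0K
      have h4 : F 0 ≤ |F 0| := le_abs_self _
      have h5 : R = 2 * (Fintype.card V : ℝ) + |F 0| + 1 := rfl
      linarith
  refine ⟨fun v => Real.exp (x v), fun v => Real.exp_pos _, fun v => ?_⟩
  let G : ℝ → ℝ := fun s => F (fun w => x w + s * (if w = v then 1 else 0))
  have hder : HasDerivAt G ((1 / 2) * ∑ w, ∑ u, M w u * (Real.exp (x w + x u) *
      ((if w = v then 1 else 0) + (if u = v then 1 else 0))) -
      ∑ w, (if w = v then (1 : ℝ) else 0)) 0 := by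
    change HasDerivAt (fun s : ℝ => (1 / 2) * ∑ w, ∑ u, M w u *
      Real.exp ((x w + s * (if w = v then 1 else 0)) + (x u + s * (if u = v then 1 else 0))) -
      ∑ w, (x w + s * (if w = v then 1 else 0))) _ 0
    have hlin : ∀ w : V, HasDerivAt (fun s : ℝ => x w + s * (if w = v then (1 : ℝ) else 0))
        (if w = v then (1 : ℝ) else 0) 0 := by
      intro w
      have := ((hasDerivAt_id (0 : ℝ)).mul_const (if w = v then (1 : ℝ) else 0)).const_add (x w)
      simpa using this
    apply HasDerivAt.sub
    · apply HasDerivAt.const_mul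
      apply HasDerivAt.fun_sum
      intro w _
      apply HasDerivAt.fun_sum
      intro u _
      apply HasDerivAt.const_mul
      have h1 := ((hlin w).add (hlin u)).exp
      simpa using h1
    · apply HasDerivAt.fun_sum
      intro w _
      exact hlin w
  have hmin : IsLocalMin G 0 := by
    apply Filter.Eventually.of_forall
    intro s
    have h0 : G 0 = F x := by
      change F (fun w => x w + 0 * (if w = v then 1 else 0)) = F x
      congr 1
      funext w
      ring
    rw [h0]
    exact hx _
  have h0 := hmin.hasDerivAt_eq_zero hder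
  have hs1 : ∑ w, (if w = v then (1 : ℝ) else 0) = 1 := by simp
  have hs2 : ∑ w, ∑ u, M w u * (Real.exp (x w + x u) *
      ((if w = v then 1 else 0) + (if u = v then 1 else 0))) =
      2 * ∑ u, M v u * Real.exp (x v + x u) := by
    have e1 : ∀ w, ∑ u, M w u * (Real.exp (x w + x u) *
        ((if w = v then 1 else 0) + (if u = v then 1 else 0))) =
        (if w = v then ∑ u, M v u * Real.exp (x v + x u) else 0) +
          M w v * Real.exp (x w + x v) := by
      intro w
      by_cases hw : w = v
      · subst hw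
        simp only [if_true, mul_add, mul_one, Finset.sum_add_distrib]
        congr 1
        simp
      · simp [hw]
    rw [Finset.sum_congr rfl (fun w _ => e1 w), Finset.sum_add_distrib, two_mul]
    congr 1
    · simp
    · apply Finset.sum_congr rfl
      intro w _
      rw [hsym w v, add_comm (x w)]
  rw [hs1, hs2] at h0
  have h1 : ∑ u, M v u * Real.exp (x v + x u) = 1 := by linarith
  rw [Finset.mul_sum, ← h1]
  apply Finset.sum_congr rfl
  intro u _
  rw [Real.exp_add]
  ring

end Pool.Agent.H977R3
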